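import Pool.Agent.MP_bd94e8_al.H83A.Cor

/-!
The dichotomy for algebras with connections.
-/

set_option autoImplicit false
set_option linter.unusedSectionVars false

namespace Pool.Agent.MP_bd94e8_al.H83A

open Module Function IsLocalRing H89

namespace TriA

section ring
variable {A : Type} [Ring A]

theorem pow_l {J : Ideal A} [J.IsTwoSided] {k : ℕ} {r x : A} (hr : r ∈ J) (hx : x ∈ J ^ k) :
    r * x ∈ J ^ (k + 1) := by
  rw [Ideal.IsTwoSided.pow_succ]; exact Ideal.mul_mem_mul hr hx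

theorem pow_r {J : Ideal A} {k : ℕ} {r x : A} (hx : x ∈ J ^ k) (hr : r ∈ J) :
    x * r ∈ J ^ (k + 1) := by
  rw [Submodule.pow_succ]; exact Ideal.mul_mem_mul hx hr

theorem mem_pow_zero (J : Ideal A) (x : A) : x ∈ J ^ 0 := by
  rw [Submodule.pow_zero, Ideal.one_eq_top]; exact Submodule.mem_top

/-- Products in the radical that pass through one of the given elements. -/
def W2 (T : Set A) : Ideal A :=
  Ideal.span {x | ∃ t ∈ T, ∃ r ∈ Ring.jacobson A, ∃ y ∈ Ring.jacobson A, x = r * t * y}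

theorem mem_W2 {T : Set A} {t r y : A} (ht : t ∈ T) (hr : r ∈ Ring.jacobson A)
    (hy : y ∈ Ring.jacobson A) : r * t * y ∈ W2 T :=
  Ideal.subset_span ⟨t, ht, r, hr, y, hy, rfl⟩

theorem W2_ind {T : Set A} (I : Ideal A) (u v : A)
    (h : ∀ t ∈ T, ∀ r ∈ Ring.jacobson A, ∀ y ∈ Ring.jacobson A, u * (r * t * y) * v ∈ I) {x : A}
    (hx : x ∈ W2 T) : u * x * v ∈ I := by
  have : ∀ c, u * (c * x) * v ∈ I := by
    induction hx using Submodule.span_induction with
    | mem x hx =>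
      obtain ⟨t, ht, r, hr, y, hy, rfl⟩ := hx
      intro c
      have := h t ht (c * r) (Ideal.mul_mem_left _ c hr) y hy
      simpa only [mul_assoc] using this
    | zero => intro c; simp
    | add x y _ _ hx hy =>
      intro c
      rw [mul_add, mul_add, add_mul]
      exact I.add_mem (hx c) (hy c)
    | smul a x _ hx =>
      intro c
      have := hx (c * a)
      simpa only [mul_assoc, smul_eq_mul] using this
  simpa using this 1

instance (T : Set A) : (W2 T).IsTwoSided := ⟨fun {a} b ha => by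
  have := W2_ind (W2 T) 1 b (fun t ht r hr y hy => by
    have := mem_W2 ht hr (Ideal.mul_mem_right b _ hy)
    simpa only [one_mul, mul_assoc] using this) ha
  rwa [one_mul] at this⟩

theorem W2_le (T : Set A) {x : A} (hx : x ∈ W2 T) : x ∈ Ring.jacobson A * Ring.jacobson A := by
  have := W2_ind (Ring.jacobson A * Ring.jacobson A) 1 1 (fun t _ r hr y hy => by
    have := Ideal.mul_mem_mul (Ideal.mul_mem_right t _ hr) hy
    simpa only [one_mul, mul_one] using this) hx
  simpa using this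

theorem out_pow {p : A} {T : Set A} (hp : IsIdempotentElem p) (hT : ∀ t ∈ T, IsIdempotentElem t)
    (h : ∀ t ∈ T, ∀ y ∈ Ring.jacobson A, p * y * t ∈ W2 (insert p T)) (k : ℕ) :
    ∀ t ∈ T, ∀ y ∈ Ring.jacobson A, p * y * t ∈ Ring.jacobson A ^ k := by
  induction k with
  | zero => exact fun _ _ _ _ => mem_pow_zero _ _
  | succ k ih =>
    intro t ht y hy
    rw [← cn_cn hp (hT t ht) y]
    refine W2_ind (Ring.jacobson A ^ (k + 1)) p t ?_ (h t ht y hy)
    rintro t' (rfl | ht') r hr y' hy'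
    · have := pow_l (Ideal.mul_mem_left _ t' hr) (ih t ht y' hy')
      simpa only [mul_assoc] using this
    · have := pow_r (ih t' ht' r hr) (Ideal.mul_mem_right t _ hy')
      simpa only [mul_assoc] using this

theorem in_pow {p : A} {T : Set A} (hp : IsIdempotentElem p) (hT : ∀ t ∈ T, IsIdempotentElem t)
    (h : ∀ t ∈ T, ∀ y ∈ Ring.jacobson A, t * y * p ∈ W2 (insert p T)) (k : ℕ) :
    ∀ t ∈ T, ∀ y ∈ Ring.jacobson A, t * y * p ∈ Ring.jacobson A ^ k := by
  induction k with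
  | zero => exact fun _ _ _ _ => mem_pow_zero _ _
  | succ k ih =>
    intro t ht y hy
    rw [← cn_cn (hT t ht) hp y]
    refine W2_ind (Ring.jacobson A ^ (k + 1)) t p ?_ (h t ht y hy)
    rintro t' (rfl | ht') r hr y' hy'
    · have := pow_r (ih t ht r hr) (Ideal.mul_mem_right t' _ hy')
      simpa only [mul_assoc] using this
    · have := pow_l (Ideal.mul_mem_left _ t hr) (ih t' ht' y' hy')
      simpa only [mul_assoc] using this

theorem exists_soc {N : ℕ} (hN : Ring.jacobson A ^ N = ⊥) {n : ℕ} {e : Fin n → A}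
    (he : CompleteOrthogonalIdempotents e) {l : Fin n} (hl : e l ≠ 0) : ∃ s, Soc e s l := by
  have h1 : ∃ c, c * e l ≠ 0 ∧ ∀ r ∈ Ring.jacobson A, r * (c * e l) = 0 := by
    by_contra h
    push Not at h
    have : ∀ k, ∃ c ∈ Ring.jacobson A ^ k, c * e l ≠ 0 := by
      intro k
      induction k with
      | zero => exact ⟨1, mem_pow_zero _ _, by rwa [one_mul]⟩
      | succ k ih =>
        obtain ⟨c, hc, h0⟩ := ih
        obtain ⟨r, hr, h1⟩ := h c h0
        exact ⟨r * c, pow_l hr hc, by rwa [mul_assoc]⟩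
    obtain ⟨c, hc, h0⟩ := this N
    rw [hN, Ideal.mem_bot] at hc
    exact h0 (by rw [hc, zero_mul])
  obtain ⟨c, h0, hc⟩ := h1
  have h2 : ∃ s, e s * (c * e l) ≠ 0 := by
    by_contra h
    push Not at h
    apply h0
    rw [← one_mul (c * e l), ← he.complete, Finset.sum_mul]
    exact Finset.sum_eq_zero fun s _ => h s
  obtain ⟨s, hs⟩ := h2
  refine ⟨s, e s * (c * e l), hs, ?_, fun r hr => ?_⟩
  · rw [← mul_assoc (e s) c]; exact cn_cn (he.idem s) (he.idem l) c
  · rw [← mul_assoc]; exact hc _ (Ideal.mul_mem_right _ _ hr)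

end ring

section alg
variable {C A : Type} [CommRing C] [Ring A] [Algebra C A]

theorem ql_zero {X Y : Submodule C A} (h : X ≤ Y) : ql X Y = 0 := by
  have : X.map Y.mkQ = ⊥ := by
    rw [eq_bot_iff, Submodule.map_le_iff_le_comap, Submodule.comap_bot, Submodule.ker_mkQ]
    exact h
  unfold ql H83.len
  rw [this, length_bot]
  rfl

theorem iso_symm [IsLocalRing C] {u v : A} (h : Iso C u v) : Iso C v u :=
  ⟨fun b => (h.2 b).imp fun _ ⟨r, c, h1, h2⟩ => ⟨r, c, h2, h1⟩,
    fun b => (h.1 b).imp fun _ ⟨r, c, h1, h2⟩ => ⟨r, c, h2, h1⟩⟩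

end alg

theorem choose_y {f g a : ℕ} (h1 : f ≤ a) (h2 : g ≤ a) (h3 : 2 * f ≤ a ∨ 2 * g ≤ a) :
    ∃ y : ℕ, y * (y * g) + 2 * f ≤ 2 * (y * a) := by
  rcases h3 with h | h
  · exact ⟨1, by omega⟩
  · exact ⟨2, by omega⟩

end TriA

open TriA in
theorem tri : SSepQ → SSoc → SEdge → STri' := by
  intro hQ hS hE C A _ _ _ _ _ _ _ n e he hC
  by_contra hab
  obtain ⟨hα, hβ⟩ := not_or.1 hab
  obtain ⟨N, hN⟩ := jac_pow C A
  obtain ⟨l⟩ : Nonempty (Fin n) := by
    by_contra h
    rw [not_nonempty_iff] at h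
    have := he.idem.complete
    rw [Finset.univ_eq_empty, Finset.sum_empty] at this
    exact zero_ne_one this
  obtain ⟨s, hs⟩ := exists_soc hN he.idem (he.ne l)
  obtain ⟨s', hs'⟩ := exists_soc hN he.idem (he.ne s)
  have n1 : ¬ Iso C (e s) (e l) := fun h => hα (hS C A n e he s l hs h)
  have n2 : ¬ Iso C (e s') (e s) := fun h => hα (hS C A n e he s' s hs' h)
  have id := he.idem.idem
  let T : Set A := {e l, e s'}
  have hT : ∀ t ∈ T, IsIdempotentElem t := by
    rintro t (rfl | rfl) <;> exact id _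
  have hT' : ∀ t ∈ T, ∃ j, t = e j ∧ ¬ Iso C (e s) (e j) := by
    rintro t (rfl | rfl)
    · exact ⟨l, rfl, n1⟩
    · exact ⟨s', rfl, fun h => n2 (iso_symm h)⟩
  obtain ⟨t, ht, x, hx, hx2⟩ : ∃ t ∈ T, ∃ y ∈ Ring.jacobson A, e s * y * t ∉ W2 (insert (e s) T) := by
    by_contra h
    push Not at h
    obtain ⟨a, h0, h1, -⟩ := hs
    have h2 := out_pow (id s) hT h N (e l) (Or.inl rfl) a (h1 ▸ (hE C A n e he s l).1 n1 a)
    rw [hN, Ideal.mem_bot, h1] at h2
    exact h0 h2
  obtain ⟨t', ht', x', hx', hx2'⟩ :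
      ∃ t ∈ T, ∃ y ∈ Ring.jacobson A, t * y * e s ∉ W2 (insert (e s) T) := by
    by_contra h
    push Not at h
    obtain ⟨a, h0, h1, -⟩ := hs'
    have h2 := in_pow (id s) hT h N (e s') (Or.inr rfl) a (h1 ▸ (hE C A n e he s' s).1 n2 a)
    rw [hN, Ideal.mem_bot, h1] at h2
    exact h0 h2
  obtain ⟨x₀, hx₀, hx₀'⟩ : ∃ y ∈ Ring.jacobson A, e s * y * e s ∉ W2 (insert (e s) T) := by
    by_contra h
    push Not at h
    obtain ⟨a, h0, h1, h2⟩ := hs
    exact hβ ⟨s, a, h0, cn_left (id s) h1, h2, fun r hr => W2_le _ (h r hr)⟩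
  obtain ⟨j, rfl, hj⟩ := hT' t ht
  obtain ⟨j', rfl, hj'⟩ := hT' t' ht'
  have ms : e s ∈ insert (e s) T := Or.inl rfl
  have mj : e j ∈ insert (e s) T := Or.inr ht
  have mj' : e j' ∈ insert (e s) T := Or.inr ht'
  have mc : ∀ i i', ∀ y ∈ Ring.jacobson A, e i * y * e i' ∈ cn (e i) (e i') (Jc C A) :=
    fun i i' y hy => ⟨Ideal.mul_mem_right _ _ (Ideal.mul_mem_left _ _ hy), cn_cn (id i) (id i') y⟩
  obtain ⟨a1, a2, a3⟩ := (hE C A n e he s j).2 (W2 (insert (e s) T))
    (fun r hr y hy => ⟨mem_W2 ms hr hy, mem_W2 mj hr hy⟩) _ (mc s j x hx) hx2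
  obtain ⟨b1, b2, b3⟩ := (hE C A n e he j' s).2 (W2 (insert (e s) T))
    (fun r hr y hy => ⟨mem_W2 mj' hr hy, mem_W2 ms hr hy⟩) _ (mc j' s x' hx') hx2'
  obtain ⟨c1, -, -⟩ := (hE C A n e he s s).2 (W2 (insert (e s) T))
    (fun r hr y hy => ⟨mem_W2 ms hr hy, mem_W2 ms hr hy⟩) _ (mc s s x₀ hx₀) hx₀'
  obtain ⟨y, hy⟩ := choose_y a1 a2 (a3.resolve_left hj)
  obtain ⟨y', hy'⟩ := choose_y b2 b1 (b3.resolve_left fun h => hj' (iso_symm h)).symm
  have z : ∀ i i', ¬ Iso C (e i) (e i') → ql (cn (e i) (e i') ⊤) (Jc C A) = 0 :=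
    fun i i' h => ql_zero fun x hx => by
      have := (hE C A n e he i i').1 h x
      rwa [hx.2] at this
  have mu : ∀ a : Fin 2 ⊕ Fin y', Sum.elim (fun _ => e s) (fun _ => e j') a ∈ insert (e s) T := by
    rintro (a | a)
    · exact ms
    · exact mj'
  have mv : ∀ a : Fin 2 ⊕ Fin y, Sum.elim (fun _ => e s) (fun _ => e j) a ∈ insert (e s) T := by
    rintro (a | a)
    · exact ms
    · exact mj
  have idT : ∀ t ∈ insert (e s) T, IsIdempotentElem t := by
    rintro t (rfl | h)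
    · exact id s
    · exact hT t h
  have key := hQ C A hC (Fin 2 ⊕ Fin y') (Fin 2 ⊕ Fin y) (Sum.elim (fun _ => e s) fun _ => e j')
    (Sum.elim (fun _ => e s) fun _ => e j) (Jc C A) (Jc C A)
    ((W2 (insert (e s) T)).restrictScalars C) (fun a => idT _ (mu a)) (fun b => idT _ (mv b))
    (fun a a' b r hr w hw => by
      have := mem_W2 (mu a') hr.1 hw.1
      rwa [cn_right (idT _ (mu a')) hr.2] at this)
    (fun a b b' w hw r hr => by
      have := mem_W2 (mv b) hw.1 hr.1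
      rwa [cn_right (idT _ (mv b)) hw.2] at this)
    (Or.inl ⟨Sum.inl 0, fun h => he.ne s ((id s).eq_zero_of_isNilpotent (jac_nil C h))⟩)
  simp only [Fintype.sum_sum_type, Sum.elim_inl, Sum.elim_inr, Finset.sum_const, Finset.card_univ,
    Fintype.card_fin, smul_eq_mul, z s j hj, z s j' hj', z j s fun h => hj (iso_symm h),
    z j' s fun h => hj' (iso_symm h), mul_zero, add_zero, zero_add, mul_add] at key
  have e1 : ∀ q : ℕ, y' * (2 * q) = 2 * (y' * q) := fun q => by ring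
  rw [e1] at key
  omega

end Pool.Agent.MP_bd94e8_al.H83A
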